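import Pool.Agent.H60.TN.Tab

/-!
# The ten numbers: divisibility, main statements
-/

set_option autoImplicit false

namespace Pool.Agent.H60.TN

theorem sq16 (n : ℕ) : (n ^ 2 % 16 = 0 ∨ n ^ 2 % 16 = 1 ∨ n ^ 2 % 16 = 4 ∨ n ^ 2 % 16 = 9) ∧
    (n % 4 ≠ 0 → n ^ 2 % 16 ≠ 0) := by
  have h : n ^ 2 % 16 = (n % 16) ^ 2 % 16 := by rw [Nat.pow_mod]
  have h4 : n % 4 = n % 16 % 4 := by omega
  rw [h, h4]
  have : n % 16 < 16 := Nat.mod_lt _ (by norm_num)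
  generalize n % 16 = k at *
  interval_cases k <;> simp

theorem pyth4 {x y z : ℕ} (h : x ^ 2 + y ^ 2 = z ^ 2) : 4 ∣ x ∨ 4 ∣ y := by
  by_contra hc
  push Not at hc
  have hx := (sq16 x).2 (fun h0 => hc.1 (Nat.dvd_of_mod_eq_zero h0))
  have hy := (sq16 y).2 (fun h0 => hc.2 (Nat.dvd_of_mod_eq_zero h0))
  have hx' := (sq16 x).1
  have hy' := (sq16 y).1
  have hz' := (sq16 z).1
  omega

theorem sq3 (n : ℕ) : (n ^ 2 % 3 = 0 ∨ n ^ 2 % 3 = 1) ∧ (n % 3 ≠ 0 → n ^ 2 % 3 = 1) := by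
  have h : n ^ 2 % 3 = (n % 3) ^ 2 % 3 := by rw [Nat.pow_mod]
  rw [h]
  have : n % 3 < 3 := Nat.mod_lt _ (by norm_num)
  generalize n % 3 = k at *
  interval_cases k <;> simp

theorem pyth3 {x y z : ℕ} (h : x ^ 2 + y ^ 2 = z ^ 2) : 3 ∣ x ∨ 3 ∣ y := by
  by_contra hc
  push Not at hc
  have hx := (sq3 x).2 (fun h0 => hc.1 (Nat.dvd_of_mod_eq_zero h0))
  have hy := (sq3 y).2 (fun h0 => hc.2 (Nat.dvd_of_mod_eq_zero h0))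
  have hz' := (sq3 z).1
  omega

theorem sq5 (n : ℕ) : n % 5 ≠ 0 → n ^ 2 % 5 = 1 ∨ n ^ 2 % 5 = 4 := by
  have h : n ^ 2 % 5 = (n % 5) ^ 2 % 5 := by rw [Nat.pow_mod]
  rw [h]
  have : n % 5 < 5 := Nat.mod_lt _ (by norm_num)
  generalize n % 5 = k at *
  interval_cases k <;> simp

theorem pyth5 {x y z : ℕ} (h : x ^ 2 + y ^ 2 = z ^ 2) : 5 ∣ x ∨ 5 ∣ y ∨ 5 ∣ z := by
  by_contra hc
  push Not at hc
  have hx := sq5 x (fun h0 => hc.1 (Nat.dvd_of_mod_eq_zero h0))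
  have hy := sq5 y (fun h0 => hc.2.1 (Nat.dvd_of_mod_eq_zero h0))
  have hz := sq5 z (fun h0 => hc.2.2 (Nat.dvd_of_mod_eq_zero h0))
  omega

theorem reduce {m x y z : ℕ} (hm : 0 < m) (h : (m * x) ^ 2 + (m * y) ^ 2 = (m * z) ^ 2) :
    x ^ 2 + y ^ 2 = z ^ 2 := by
  rw [mul_pow, mul_pow, mul_pow, ← mul_add] at h
  exact Nat.eq_of_mul_eq_mul_left (pow_pos hm 2) h

variable {a b c d r s t u v w : ℕ}

theorem mults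
    (e1 : b ^ 2 = a ^ 2 + r ^ 2) (e2 : c ^ 2 = a ^ 2 + s ^ 2) (e3 : d ^ 2 = a ^ 2 + t ^ 2)
    (e4 : c ^ 2 = b ^ 2 + u ^ 2) (e5 : d ^ 2 = b ^ 2 + v ^ 2) (e6 : d ^ 2 = c ^ 2 + w ^ 2) :
    4 ≤ mult 4 [a, b, c, d, r, s, t, u, v, w] ∧ 4 ≤ mult 3 [a, b, c, d, r, s, t, u, v, w] ∧
    4 ≤ mult 5 [a, b, c, d, r, s, t, u, v, w] ∧ 1 ≤ mult 16 [a, b, c, d, r, s, t, u, v, w] ∧
    1 ≤ mult 9 [a, b, c, d, r, s, t, u, v, w] ∧ 1 ≤ mult 25 [a, b, c, d, r, s, t, u, v, w] ∧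
    2 ≤ mult 7 [a, b, c, d, r, s, t, u, v, w] ∧ 2 ≤ mult 13 [a, b, c, d, r, s, t, u, v, w] ∧
    2 ≤ mult 17 [a, b, c, d, r, s, t, u, v, w] ∧ 1 ≤ mult 11 [a, b, c, d, r, s, t, u, v, w] ∧
    1 ≤ mult 29 [a, b, c, d, r, s, t, u, v, w] ∧ 1 ≤ mult 37 [a, b, c, d, r, s, t, u, v, w] := by
  have pr : ∀ q : ℕ, q.Prime → ∀ x, q ∣ x ^ 2 → q ∣ x := fun q hq x hx => hq.dvd_of_dvd_pow hx
  have h16 : ∀ x : ℕ, 16 ∣ x ^ 2 → 4 ∣ x := fun x hx =>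
    (Nat.pow_dvd_pow_iff (n := 2) (by norm_num)).1 (by norm_num; exact hx)
  refine ⟨count (by norm_num) sq16_ te16 h16 e1 e2 e3 e4 e5 e6,
    count (by norm_num) sq3_ te3 (pr 3 (by norm_num)) e1 e2 e3 e4 e5 e6,
    count (by norm_num) sq5_ te5 (pr 5 (by norm_num)) e1 e2 e3 e4 e5 e6, ?_, ?_, ?_,
    count (by norm_num) sq7_ te7 (pr 7 (by norm_num)) e1 e2 e3 e4 e5 e6,
    count (by norm_num) sq13_ te13 (pr 13 (by norm_num)) e1 e2 e3 e4 e5 e6,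
    count (by norm_num) sq17_ te17 (pr 17 (by norm_num)) e1 e2 e3 e4 e5 e6,
    count (by norm_num) sq11_ te11 (pr 11 (by norm_num)) e1 e2 e3 e4 e5 e6,
    count (by norm_num) sq29_ te29 (pr 29 (by norm_num)) e1 e2 e3 e4 e5 e6,
    count (by norm_num) sq37_ te37 (pr 37 (by norm_num)) e1 e2 e3 e4 e5 e6⟩
  · obtain ⟨x, hx, y, hy, z, hz, ⟨x', rfl⟩, ⟨y', rfl⟩, ⟨z', rfl⟩, h⟩ :=
      triangle (by norm_num) sq16_ tr16 h16 e1 e2 e3 e4 e5 e6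
    rcases pyth4 (reduce (by norm_num) h) with h' | h'
    · exact mult_pos hx (mul_dvd_mul_left 4 h')
    · exact mult_pos hy (mul_dvd_mul_left 4 h')
  · obtain ⟨x, hx, y, hy, z, hz, ⟨x', rfl⟩, ⟨y', rfl⟩, ⟨z', rfl⟩, h⟩ :=
      triangle (by norm_num) sq3_ tr3 (pr 3 (by norm_num)) e1 e2 e3 e4 e5 e6
    rcases pyth3 (reduce (by norm_num) h) with h' | h'
    · exact mult_pos hx (mul_dvd_mul_left 3 h')
    · exact mult_pos hy (mul_dvd_mul_left 3 h')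
  · obtain ⟨x, hx, y, hy, z, hz, ⟨x', rfl⟩, ⟨y', rfl⟩, ⟨z', rfl⟩, h⟩ :=
      triangle (by norm_num) sq5_ tr5 (pr 5 (by norm_num)) e1 e2 e3 e4 e5 e6
    rcases pyth5 (reduce (by norm_num) h) with h' | h' | h'
    · exact mult_pos hx (mul_dvd_mul_left 5 h')
    · exact mult_pos hy (mul_dvd_mul_left 5 h')
    · exact mult_pos hz (mul_dvd_mul_left 5 h')

theorem comb {P : ℕ} (k4 : 4 ^ 5 ∣ P) (k3 : 3 ^ 5 ∣ P) (k5 : 5 ^ 5 ∣ P) (k7 : 7 ^ 2 ∣ P)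
    (k11 : 11 ^ 1 ∣ P) (k13 : 13 ^ 2 ∣ P) (k17 : 17 ^ 2 ∣ P) (k29 : 29 ^ 1 ∣ P)
    (k37 : 37 ^ 1 ∣ P) :
    2 ^ 10 * 3 ^ 5 * 5 ^ 5 * 7 ^ 2 * 11 * 13 ^ 2 * 17 ^ 2 * 29 * 37 ∣ P := by
  have cp : ∀ {x y : ℕ}, Nat.gcd x y = 1 → x ∣ P → y ∣ P → x * y ∣ P :=
    fun h hx hy => Nat.Coprime.mul_dvd_of_dvd_of_dvd h hx hy
  have h1 := cp (by norm_num) k4 k3
  have h2 := cp (by norm_num) h1 k5
  have h3 := cp (by norm_num) h2 k7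
  have h4 := cp (by norm_num) h3 k11
  have h5 := cp (by norm_num) h4 k13
  have h6 := cp (by norm_num) h5 k17
  have h7 := cp (by norm_num) h6 k29
  have h8 := cp (by norm_num) h7 k37
  norm_num at h8 ⊢
  exact h8

theorem pow_prod {m k : ℕ} {L : List ℕ} (h : k ≤ mult m L + mult (m ^ 2) L) : m ^ k ∣ L.prod :=
  (pow_dvd_pow m h).trans (dvd_prod m L)

/-- The product of the ten numbers. -/
theorem prod_dvd
    (e1 : b ^ 2 = a ^ 2 + r ^ 2) (e2 : c ^ 2 = a ^ 2 + s ^ 2) (e3 : d ^ 2 = a ^ 2 + t ^ 2)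
    (e4 : c ^ 2 = b ^ 2 + u ^ 2) (e5 : d ^ 2 = b ^ 2 + v ^ 2) (e6 : d ^ 2 = c ^ 2 + w ^ 2) :
    2 ^ 10 * 3 ^ 5 * 5 ^ 5 * 7 ^ 2 * 11 * 13 ^ 2 * 17 ^ 2 * 29 * 37 ∣
      [a, b, c, d, r, s, t, u, v, w].prod := by
  obtain ⟨h4, h3, h5, h16, h9, h25, h7, h13, h17, h11, h29, h37⟩ := mults e1 e2 e3 e4 e5 e6
  generalize [a, b, c, d, r, s, t, u, v, w] = L at *
  have g4 : 5 ≤ mult 4 L + mult (4 ^ 2) L := Nat.add_le_add h4 h16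
  have g3 : 5 ≤ mult 3 L + mult (3 ^ 2) L := Nat.add_le_add h3 h9
  have g5 : 5 ≤ mult 5 L + mult (5 ^ 2) L := Nat.add_le_add h5 h25
  exact comb (pow_prod g4) (pow_prod g3) (pow_prod g5) (pow_prod (h7.trans (Nat.le_add_right _ _)))
    (pow_prod (h11.trans (Nat.le_add_right _ _))) (pow_prod (h13.trans (Nat.le_add_right _ _)))
    (pow_prod (h17.trans (Nat.le_add_right _ _))) (pow_prod (h29.trans (Nat.le_add_right _ _)))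
    (pow_prod (h37.trans (Nat.le_add_right _ _)))

end Pool.Agent.H60.TN
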