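import Mathlib

/-!
# Four squares with square differences: residues of the ten numbers
-/

set_option autoImplicit false

namespace Pool.Agent.H60.TN

/-- The residues modulo `q` of the ten numbers `y₁, …, y₄` and `y_j - y_i`. -/
def ten (q y₁ y₂ y₃ y₄ : ℕ) : List ℕ :=
  [y₁, y₂, y₃, y₄, (y₂ + q - y₁) % q, (y₃ + q - y₁) % q, (y₄ + q - y₁) % q,
    (y₃ + q - y₂) % q, (y₄ + q - y₂) % q, (y₄ + q - y₃) % q]

/-- For all choices of residues in `S` with differences in `S` the ten residues satisfy `P`. -/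
def test (q : ℕ) (P : List ℕ → Bool) (S : List ℕ) : Bool :=
  S.all fun y₁ => S.all fun y₂ => !(S.contains ((y₂ + q - y₁) % q)) ||
    S.all fun y₃ => !(S.contains ((y₃ + q - y₁) % q)) || !(S.contains ((y₃ + q - y₂) % q)) ||
      S.all fun y₄ => !(S.contains ((y₄ + q - y₁) % q)) || !(S.contains ((y₄ + q - y₂) % q)) ||
        !(S.contains ((y₄ + q - y₃) % q)) || P (ten q y₁ y₂ y₃ y₄)

/-- all squares modulo `q` are in `S` -/
def sqs (q : ℕ) (S : List ℕ) : Bool := (List.range q).all fun x => S.contains (x * x % q)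

theorem sqs_spec {q : ℕ} {S : List ℕ} (hq : 0 < q) (h : sqs q S = true) (x : ℕ) :
    S.contains (x ^ 2 % q) = true := by
  unfold sqs at h
  rw [List.all_eq_true] at h
  have := h (x % q) (List.mem_range.2 (Nat.mod_lt _ hq))
  rwa [← Nat.mul_mod, ← sq] at this

theorem test_spec {q : ℕ} {P : List ℕ → Bool} {S : List ℕ} (h : test q P S = true)
    {y₁ y₂ y₃ y₄ : ℕ}
    (h1 : S.contains y₁ = true) (h2 : S.contains y₂ = true) (h3 : S.contains y₃ = true)
    (h4 : S.contains y₄ = true) (h12 : S.contains ((y₂ + q - y₁) % q) = true)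
    (h13 : S.contains ((y₃ + q - y₁) % q) = true) (h14 : S.contains ((y₄ + q - y₁) % q) = true)
    (h23 : S.contains ((y₃ + q - y₂) % q) = true) (h24 : S.contains ((y₄ + q - y₂) % q) = true)
    (h34 : S.contains ((y₄ + q - y₃) % q) = true) :
    P (ten q y₁ y₂ y₃ y₄) = true := by
  unfold test at h
  simp only [List.all_eq_true] at h
  have a1 := h y₁ (List.contains_iff_mem.1 h1) y₂ (List.contains_iff_mem.1 h2)
  rw [h12] at a1
  simp only [Bool.not_true, Bool.false_or, List.all_eq_true] at a1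
  have a2 := a1 y₃ (List.contains_iff_mem.1 h3)
  rw [h13, h23] at a2
  simp only [Bool.not_true, Bool.false_or, List.all_eq_true] at a2
  have a3 := a2 y₄ (List.contains_iff_mem.1 h4)
  rw [h14, h24, h34] at a3
  simp only [Bool.not_true, Bool.false_or] at a3
  exact a3

/-- the number of entries of `L` which are divisible by `m` -/
def mult (m : ℕ) (L : List ℕ) : ℕ := L.countP fun x => decide (m ∣ x)

theorem sub_mod {q u v r : ℕ} (hq : 0 < q) (h : v = u + r) :
    (v % q + q - u % q) % q = r % q := by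
  subst h
  have hu := Nat.mod_lt u hq
  have e : (u + r) % q + q - u % q ≡ r [MOD q] := by
    have e1 : (u + r) % q + q - u % q + u % q = (u + r) % q + q := by
      have := Nat.mod_lt (u + r) hq
      omega
    have e2 : ((u + r) % q + q - u % q) + u % q ≡ r + u % q [MOD q] := by
      rw [e1]
      calc (u + r) % q + q ≡ (u + r) % q [MOD q] := by
            unfold Nat.ModEq; simp
        _ ≡ u + r [MOD q] := Nat.mod_modEq _ _
        _ = r + u := by ring
        _ ≡ r + u % q [MOD q] := (Nat.ModEq.refl r).add (Nat.mod_modEq u q).symm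
    exact Nat.ModEq.add_right_cancel' _ e2
  exact e

variable {a b c d r s t u v w : ℕ}

/-- The ten residues of a solution satisfy `P`. -/
theorem resid {q : ℕ} {P : List ℕ → Bool} {S : List ℕ} (hq : 0 < q) (hs : sqs q S = true)
    (ht : test q P S = true)
    (e1 : b ^ 2 = a ^ 2 + r ^ 2) (e2 : c ^ 2 = a ^ 2 + s ^ 2) (e3 : d ^ 2 = a ^ 2 + t ^ 2)
    (e4 : c ^ 2 = b ^ 2 + u ^ 2) (e5 : d ^ 2 = b ^ 2 + v ^ 2) (e6 : d ^ 2 = c ^ 2 + w ^ 2) :
    P ([a, b, c, d, r, s, t, u, v, w].map fun x => x ^ 2 % q) = true := by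
  have key := test_spec ht (sqs_spec hq hs a) (sqs_spec hq hs b) (sqs_spec hq hs c)
    (sqs_spec hq hs d) (by rw [sub_mod hq e1]; exact sqs_spec hq hs r)
    (by rw [sub_mod hq e2]; exact sqs_spec hq hs s) (by rw [sub_mod hq e3]; exact sqs_spec hq hs t)
    (by rw [sub_mod hq e4]; exact sqs_spec hq hs u) (by rw [sub_mod hq e5]; exact sqs_spec hq hs v)
    (by rw [sub_mod hq e6]; exact sqs_spec hq hs w)
  have e : ten q (a ^ 2 % q) (b ^ 2 % q) (c ^ 2 % q) (d ^ 2 % q) =
      [a, b, c, d, r, s, t, u, v, w].map fun x => x ^ 2 % q := by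
    unfold ten
    rw [sub_mod hq e1, sub_mod hq e2, sub_mod hq e3, sub_mod hq e4, sub_mod hq e5, sub_mod hq e6]
    rfl
  rwa [e] at key

/-- at least `n` zeros -/
def zeros (n : ℕ) (L : List ℕ) : Bool := Nat.ble n (L.countP (Nat.beq 0))

/-- The counting lemma. -/
theorem count {q n m : ℕ} {S : List ℕ} (hq : 0 < q) (hs : sqs q S = true)
    (ht : test q (zeros n) S = true) (hm : ∀ x, q ∣ x ^ 2 → m ∣ x)
    (e1 : b ^ 2 = a ^ 2 + r ^ 2) (e2 : c ^ 2 = a ^ 2 + s ^ 2) (e3 : d ^ 2 = a ^ 2 + t ^ 2)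
    (e4 : c ^ 2 = b ^ 2 + u ^ 2) (e5 : d ^ 2 = b ^ 2 + v ^ 2) (e6 : d ^ 2 = c ^ 2 + w ^ 2) :
    n ≤ mult m [a, b, c, d, r, s, t, u, v, w] := by
  have key := Nat.le_of_ble_eq_true (resid hq hs ht e1 e2 e3 e4 e5 e6)
  rw [List.countP_map] at key
  refine key.trans (List.countP_mono_left fun x _ hx => ?_)
  have hx' : Nat.beq 0 (x ^ 2 % q) = true := hx
  rw [Nat.beq_eq] at hx'
  exact decide_eq_true (hm x (Nat.dvd_of_mod_eq_zero hx'.symm))

/-- three zeros at the sides of one of the ten triangles -/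
def tri : List ℕ → Bool
  | [a, b, c, d, r, s, t, u, v, w] =>
    let z := Nat.beq 0
    (z a && z r && z b) || (z a && z s && z c) || (z a && z t && z d) || (z b && z u && z c) ||
    (z b && z v && z d) || (z c && z w && z d) || (z r && z u && z s) || (z r && z v && z t) ||
    (z s && z w && z t) || (z u && z w && z v)
  | _ => false

/-- Some Pythagorean triple among the ten numbers consists of multiples of `m`. -/
theorem triangle {q m : ℕ} {S : List ℕ} (hq : 0 < q) (hs : sqs q S = true)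
    (ht : test q tri S = true) (hm : ∀ x, q ∣ x ^ 2 → m ∣ x)
    (e1 : b ^ 2 = a ^ 2 + r ^ 2) (e2 : c ^ 2 = a ^ 2 + s ^ 2) (e3 : d ^ 2 = a ^ 2 + t ^ 2)
    (e4 : c ^ 2 = b ^ 2 + u ^ 2) (e5 : d ^ 2 = b ^ 2 + v ^ 2) (e6 : d ^ 2 = c ^ 2 + w ^ 2) :
    ∃ x ∈ [a, b, c, d, r, s, t, u, v, w], ∃ y ∈ [a, b, c, d, r, s, t, u, v, w],
      ∃ z ∈ [a, b, c, d, r, s, t, u, v, w], m ∣ x ∧ m ∣ y ∧ m ∣ z ∧ x ^ 2 + y ^ 2 = z ^ 2 := by
  have key := resid hq hs ht e1 e2 e3 e4 e5 e6
  have hz : ∀ x, Nat.beq 0 (x ^ 2 % q) = true → m ∣ x := fun x hx => by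
    rw [Nat.beq_eq] at hx
    exact hm x (Nat.dvd_of_mod_eq_zero hx.symm)
  simp only [List.map_cons, List.map_nil, tri, Bool.or_eq_true, Bool.and_eq_true] at key
  rcases key with ((((((((h | h) | h) | h) | h) | h) | h) | h) | h) | h
  · exact ⟨a, by simp, r, by simp, b, by simp, hz _ h.1.1, hz _ h.1.2, hz _ h.2, e1.symm⟩
  · exact ⟨a, by simp, s, by simp, c, by simp, hz _ h.1.1, hz _ h.1.2, hz _ h.2, e2.symm⟩
  · exact ⟨a, by simp, t, by simp, d, by simp, hz _ h.1.1, hz _ h.1.2, hz _ h.2, e3.symm⟩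
  · exact ⟨b, by simp, u, by simp, c, by simp, hz _ h.1.1, hz _ h.1.2, hz _ h.2, e4.symm⟩
  · exact ⟨b, by simp, v, by simp, d, by simp, hz _ h.1.1, hz _ h.1.2, hz _ h.2, e5.symm⟩
  · exact ⟨c, by simp, w, by simp, d, by simp, hz _ h.1.1, hz _ h.1.2, hz _ h.2, e6.symm⟩
  · exact ⟨r, by simp, u, by simp, s, by simp, hz _ h.1.1, hz _ h.1.2, hz _ h.2, by omega⟩
  · exact ⟨r, by simp, v, by simp, t, by simp, hz _ h.1.1, hz _ h.1.2, hz _ h.2, by omega⟩
  · exact ⟨s, by simp, w, by simp, t, by simp, hz _ h.1.1, hz _ h.1.2, hz _ h.2, by omega⟩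
  · exact ⟨u, by simp, w, by simp, v, by simp, hz _ h.1.1, hz _ h.1.2, hz _ h.2, by omega⟩

theorem mult_pos {m : ℕ} {L : List ℕ} {x : ℕ} (hx : x ∈ L) (h : m ∣ x) : 1 ≤ mult m L :=
  List.countP_pos_iff.2 ⟨x, hx, decide_eq_true h⟩

/-- the product is divisible by powers of `m` -/
theorem dvd_prod (m : ℕ) (L : List ℕ) : m ^ (mult m L + mult (m ^ 2) L) ∣ L.prod := by
  induction L with
  | nil => simp [mult]
  | cons x L ih =>
    unfold mult at ih ⊢
    rw [List.countP_cons, List.countP_cons, List.prod_cons]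
    by_cases h2 : m ^ 2 ∣ x
    · have h1 : m ∣ x := (Dvd.intro m (by ring)).trans h2
      simp only [h1, h2, decide_true, if_true]
      have e : m ^ (L.countP (fun x => decide (m ∣ x)) + 1 +
          (L.countP (fun x => decide (m ^ 2 ∣ x)) + 1)) =
          m ^ 2 * m ^ (L.countP (fun x => decide (m ∣ x)) +
            L.countP (fun x => decide (m ^ 2 ∣ x))) := by ring
      rw [e]
      exact mul_dvd_mul h2 ih
    · by_cases h1 : m ∣ x
      · simp only [h1, h2, decide_true, decide_false, if_true]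
        have e : m ^ (L.countP (fun x => decide (m ∣ x)) + 1 +
            (L.countP (fun x => decide (m ^ 2 ∣ x)) + 0)) =
            m * m ^ (L.countP (fun x => decide (m ∣ x)) +
              L.countP (fun x => decide (m ^ 2 ∣ x))) := by ring
        have e0 : (if false = true then 1 else 0) = 0 := rfl
        rw [e0, e]
        exact mul_dvd_mul h1 ih
      · simp only [h1, h2, decide_false]
        have e0 : (if false = true then 1 else 0) = 0 := rfl
        rw [e0, add_zero, add_zero]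
        exact ih.trans (Dvd.intro_left x rfl)

end Pool.Agent.H60.TN
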