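import Pool.Agent.H60.TN.Res

/-!
# The ten numbers: divisibility
-/

set_option autoImplicit false

namespace Pool.Agent.H60.TN

theorem sq3_ : sqs 3 [0, 1] = true := by decide +kernel

theorem te3 : test 3 (zeros 4) [0, 1] = true := by decide +kernel

theorem sq5_ : sqs 5 [0, 1, 4] = true := by decide +kernel

theorem te5 : test 5 (zeros 4) [0, 1, 4] = true := by decide +kernel

theorem sq16_ : sqs 16 [0, 1, 4, 9] = true := by decide +kernel

theorem te16 : test 16 (zeros 4) [0, 1, 4, 9] = true := by decide +kernel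

theorem sq7_ : sqs 7 [0, 1, 2, 4] = true := by decide +kernel

theorem te7 : test 7 (zeros 2) [0, 1, 2, 4] = true := by decide +kernel

theorem sq13_ : sqs 13 [0, 1, 3, 4, 9, 10, 12] = true := by decide +kernel

theorem te13 : test 13 (zeros 2) [0, 1, 3, 4, 9, 10, 12] = true := by decide +kernel

theorem sq17_ : sqs 17 [0, 1, 2, 4, 8, 9, 13, 15, 16] = true := by decide +kernel

theorem te17 : test 17 (zeros 2) [0, 1, 2, 4, 8, 9, 13, 15, 16] = true := by decide +kernel

theorem sq11_ : sqs 11 [0, 1, 3, 4, 5, 9] = true := by decide +kernel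

theorem te11 : test 11 (zeros 1) [0, 1, 3, 4, 5, 9] = true := by decide +kernel

theorem sq29_ : sqs 29 [0, 1, 4, 5, 6, 7, 9, 13, 16, 20, 22, 23, 24, 25, 28] = true := by decide +kernel

theorem te29 : test 29 (zeros 1) [0, 1, 4, 5, 6, 7, 9, 13, 16, 20, 22, 23, 24, 25, 28] = true := by decide +kernel

theorem sq37_ : sqs 37 [0, 1, 3, 4, 7, 9, 10, 11, 12, 16, 21, 25, 26, 27, 28, 30, 33, 34, 36] = true := by decide +kernel

theorem te37 : test 37 (zeros 1) [0, 1, 3, 4, 7, 9, 10, 11, 12, 16, 21, 25, 26, 27, 28, 30, 33, 34, 36] = true := by decide +kernel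

theorem tr3 : test 3 tri [0, 1] = true := by decide +kernel

theorem tr5 : test 5 tri [0, 1, 4] = true := by decide +kernel

theorem tr16 : test 16 tri [0, 1, 4, 9] = true := by decide +kernel

end Pool.Agent.H60.TN
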